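import Pool.Agent.W_332fe5.Defs
import Pool.Agent.W_332fe5.P.Pub

set_option autoImplicit false

/-! The definitions of `Pub` agree with those of `Defs`. -/

open MeasureTheory ProbabilityTheory Set Filter Topology
open scoped ENNReal NNReal

namespace Pool.Agent.W_332fe5.Pub

/-- The same basis. -/
def toB {Ω : Type} [MeasurableSpace Ω] (B : Basis Ω) : Pool.Agent.W_332fe5.Basis Ω where
  P := B.P
  isProb := B.isProb
  F := B.F
  complete := B.complete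
  rightCont := B.rightCont
  W := B.W
  adapted := B.adapted
  brownian := B.brownian
  indep := B.indep
  increments := B.increments

theorem smoothDomain_of {O : Set E3} (h : Pool.Agent.W_332fe5.SmoothDomain O) : SmoothDomain O := h

theorem coeffs_of {O : Set E3} {ν : ℝ} {b : ℕ → E3 → E3} {g : ℕ → E3 → E3 → E3}
    (h : Pool.Agent.W_332fe5.Coeffs O ν b g) : Coeffs O ν b g where
  parabolic := h.parabolic
  g_measurable := h.g_measurable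
  g_integrable := h.g_integrable
  g_bounded := h.g_bounded
  g_lipschitz := h.g_lipschitz

theorem isStochInt_iff {Ω : Type} [MeasurableSpace Ω] (B : Basis Ω) (τ : Ω → ℝ≥0∞)
    (H : ℕ → ℝ≥0 → Ω → ℝ) (M : ℝ≥0 → Ω → ℝ) :
    IsStochInt B τ H M ↔ Pool.Agent.W_332fe5.IsStochInt (toB B) τ H M :=
  ⟨fun h => ⟨h.start, h.cont, h.sq, h.mart⟩, fun h => ⟨h.start, h.cont, h.sq, h.mart⟩⟩

theorem res_eq (O : Set E3) (l : ℝ) (f : L2) :
    res O l f = Pool.Agent.W_332fe5.res O l f := rfl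

theorem negPow_eq (O : Set E3) (l : ℝ) (f : L2) :
    negPow O l f = Pool.Agent.W_332fe5.negPow O l f := rfl

theorem trPow_eq (O : Set E3) (p κ q : ℝ) (f : L2) :
    trPow O p κ q f = Pool.Agent.W_332fe5.trPow O p κ q f := rfl

theorem pairX_eq (O : Set E3) (δ : ℝ) (f : L2) (φ : E3 → E3) :
    pairX O δ f φ = Pool.Agent.W_332fe5.pairX O δ f φ := rfl

theorem pairH_eq (O : Set E3) (δ : ℝ) (f : L2) (φ : E3 → E3) :
    pairH O δ f φ = Pool.Agent.W_332fe5.pairH O δ f φ := rfl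

theorem strongSol_iff {Ω : Type} [MeasurableSpace Ω] (B : Basis Ω) (O : Set E3) (ν : ℝ)
    (b : ℕ → E3 → E3) (g : ℕ → E3 → E3 → E3) (p κ δ q : ℝ) (v₀ : Ω → L2) (τ : Ω → ℝ≥0∞)
    (v w : ℝ≥0 → Ω → L2) :
    StrongSol B O ν b g p κ δ q v₀ τ v w ↔
      Pool.Agent.W_332fe5.StrongSol (toB B) O ν b g p κ δ q v₀ τ v w := by
  constructor
  · intro h
    refine ⟨h.stop, h.prog_v, h.prog_w, h.init, h.cont, h.mem, h.int, h.drift, ?_⟩
    obtain ⟨hh, h1, h2, h3, h4⟩ := h.eqn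
    exact ⟨hh, h1, h2, h3, fun φ hφ => (isStochInt_iff B τ _ _).1 (h4 φ hφ)⟩
  · intro h
    refine ⟨h.stop, h.prog_v, h.prog_w, h.init, h.cont, h.mem, h.int, h.drift, ?_⟩
    obtain ⟨hh, h1, h2, h3, h4⟩ := h.eqn
    exact ⟨hh, h1, h2, h3, fun φ hφ => (isStochInt_iff B τ _ _).2 (h4 φ hφ)⟩

theorem localSol_iff {Ω : Type} [MeasurableSpace Ω] (B : Basis Ω) (O : Set E3) (ν : ℝ)
    (b : ℕ → E3 → E3) (g : ℕ → E3 → E3 → E3) (p κ δ q : ℝ) (v₀ : Ω → L2) (σ : Ω → ℝ≥0∞)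
    (v w : ℝ≥0 → Ω → L2) :
    LocalSol B O ν b g p κ δ q v₀ σ v w ↔
      Pool.Agent.W_332fe5.LocalSol (toB B) O ν b g p κ δ q v₀ σ v w := by
  constructor
  · rintro ⟨τ, h1, h2, h3⟩
    exact ⟨τ, fun n => (strongSol_iff ..).1 (h1 n), h2, h3⟩
  · rintro ⟨τ, h1, h2, h3⟩
    exact ⟨τ, fun n => (strongSol_iff ..).2 (h1 n), h2, h3⟩

theorem uniqueSol_of {Ω : Type} [MeasurableSpace Ω] {B : Basis Ω} {O : Set E3} {ν : ℝ}
    {b : ℕ → E3 → E3} {g : ℕ → E3 → E3 → E3} {p κ δ q : ℝ} {v₀ : Ω → L2} {σ : Ω → ℝ≥0∞}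
    {v w : ℝ≥0 → Ω → L2} (h : UniqueSol B O ν b g p κ δ q v₀ σ v w) :
    Pool.Agent.W_332fe5.MaximalSol (toB B) O ν b g p κ δ q v₀ σ v w :=
  ⟨(localSol_iff ..).1 h.1, fun σ' v' w' h' => h.2 σ' v' w' ((localSol_iff ..).2 h')⟩

theorem lwp_of {Ω : Type} [MeasurableSpace Ω] {B : Basis Ω} {O : Set E3} {ν : ℝ}
    {b : ℕ → E3 → E3} {g : ℕ → E3 → E3 → E3} {p κ δ q : ℝ} (h : LWP B O ν b g p κ δ q) :
    Pool.Agent.W_332fe5.LWP (toB B) O ν b g p κ δ q := by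
  intro v₀ h1 h2
  obtain ⟨σ, v, w, h3, h4⟩ := h v₀ h1 h2
  exact ⟨σ, v, w, uniqueSol_of h3, h4⟩

end Pool.Agent.W_332fe5.Pub
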