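import Pool.Agent.W_332fe5.F.F4
import Pool.Agent.W_332fe5.P.Eqv

set_option autoImplicit false

/-! The final statements over the definitions of `Pub`. -/

open MeasureTheory ProbabilityTheory Set Filter Topology
open scoped ENNReal NNReal

namespace Pool.Agent.W_332fe5.Pub

theorem statA : ∀ θ : ℝ, 0 < θ → θ < 1 / 4 →
    ∃ (O : Set E3) (ν : ℝ) (b : ℕ → E3 → E3) (g : ℕ → E3 → E3 → E3),
      SmoothDomain O ∧ 0 < ν ∧ Coeffs O ν b g ∧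
      (∀ α : ℝ, 0 < α → α ≤ 1 → (HolderB O α b ↔ α ≤ θ)) ∧
      ∀ p κ δ q : ℝ, Critical p κ δ q →
        (∃ α : ℝ, -δ < α ∧ 0 < α ∧ α ≤ 1 ∧ HolderB O α b) →
        ∀ (Ω : Type) (_ : MeasurableSpace Ω) (B : Basis Ω), ¬ LWP B O ν b g p κ δ q := by
  intro θ h1 h2
  obtain ⟨O, ν, b, g, k1, k2, k3, k4, k5⟩ := Pool.Agent.W_332fe5.statA θ h1 h2
  exact ⟨O, ν, b, g, k1, k2, coeffs_of k3, k4,
    fun p κ δ q l1 l2 Ω _ B l3 => k5 p κ δ q l1 l2 Ω _ (toB B) (lwp_of l3)⟩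

theorem statB : ∀ δ₀ : ℝ, -(1 / 4) < δ₀ → δ₀ ≤ 0 →
    ∃ (O : Set E3) (ν : ℝ) (b : ℕ → E3 → E3) (g : ℕ → E3 → E3 → E3),
      SmoothDomain O ∧ 0 < ν ∧ Coeffs O ν b g ∧
      (∀ n, Smooth (b n)) ∧
      (∃ c : ℝ, (∀ x, b 0 x = c • x) ∧ ∀ x y, g 0 x y = c • y) ∧
      (∀ n, 1 ≤ n → (∀ x, b n x = 0) ∧ ∀ x y, g n x y = 0) ∧
      ∀ p κ δ q : ℝ, Critical p κ δ q → δ₀ ≤ δ →
        ∀ (Ω : Type) (_ : MeasurableSpace Ω) (B : Basis Ω), ¬ LWP B O ν b g p κ δ q := by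
  intro δ₀ h1 h2
  obtain ⟨O, ν, b, g, k1, k2, k3, k4, k5, k6, k7⟩ := Pool.Agent.W_332fe5.statB δ₀ h1 h2
  exact ⟨O, ν, b, g, k1, k2, coeffs_of k3, k4, k5, k6,
    fun p κ δ q l1 l2 Ω _ B l3 => k7 p κ δ q l1 l2 Ω _ (toB B) (lwp_of l3)⟩

end Pool.Agent.W_332fe5.Pub
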